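import Pool.Agent.Helper76.SGA.Goals

/-!
Packet 12850 (SGA-BSTEPA, MP_a41896_nt): the induction step of the block Roth lemma from the parts,
by helper39.
-/

set_option autoImplicit false

open MvPolynomial

namespace Pool.Agent.Helper39.SGA

open Pool.Agent.Helper92.Ru Pool.Agent.Helper42.SG Pool.Agent.Helper76.SGA

noncomputable section

theorem LowPt_mono {k : Type} [Field k] [NumberField k] {n n' : ℕ} {d : ℕ → ℕ} {ξ : ℕ → k}
    {D D' : ℕ} {A A' : ℝ} (hn : n ≤ n') (hD : D ≤ D') (hA : A ≤ A') (h : LowPt n d ξ D A) :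
    LowPt n' d ξ D' A' := by
  obtain ⟨j, hj, f, h1, h2, h3, h4⟩ := h
  exact ⟨j, by omega, f, h1, fun e => (h2 e).trans hD, h3, h4.trans hA⟩

theorem bstepa : BSTEPA := by
  intro hFAC hREN hBASE hSA hSB n hBL k _ _ σ hσ
  obtain ⟨C₁, σ₁, hC₁, hσ₁, F⟩ := hFAC k (2 * n + 2) σ hσ
  obtain ⟨D₀, K₀, ω₀, hK₀, hω₀, hω₀', B1⟩ := hBL k σ₁ hσ₁
  obtain ⟨D₁, K₁, hK₁, B2⟩ := hBASE k σ₁ hσ₁
  obtain ⟨C₂, ω₂, σ₃, hC₂, hω₂, hω₂', hσ₃, SA⟩ := hSA k (2 * n) σ₁ hσ₁
  obtain ⟨C₃, K₃, ω₃, σ₄, hC₃, hK₃, hω₃, hω₃', hσ₄, SB⟩ := hSB k (2 * n) σ₃ hσ₃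
  obtain ⟨D₄, K₄, ω₄, hK₄, hω₄, hω₄', B4⟩ := hBL k σ₄ hσ₄
  set Kc := C₁ * C₂ * C₃ * (K₀ + K₁ + K₃ + K₄) with hKc
  have hC12 : 1 ≤ C₁ * C₂ := by nlinarith
  have hC23 : 1 ≤ C₂ * C₃ := by nlinarith
  have hC123 : 1 ≤ C₁ * C₂ * C₃ := by nlinarith
  have hC1 : C₁ ≤ C₁ * C₂ * C₃ := by
    have : C₁ * 1 ≤ C₁ * (C₂ * C₃) := mul_le_mul_of_nonneg_left hC23 (by linarith)
    linarith [mul_assoc C₁ C₂ C₃]
  have hC12' : C₁ * C₂ ≤ C₁ * C₂ * C₃ := by
    have : C₁ * C₂ * 1 ≤ C₁ * C₂ * C₃ := mul_le_mul_of_nonneg_left hC₃ (by linarith)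
    linarith
  have hkey : ∀ c K : ℝ, 0 ≤ K → c ≤ C₁ * C₂ * C₃ → K ≤ K₀ + K₁ + K₃ + K₄ → c * K ≤ Kc := by
    intro c K h1 h2 h3
    calc c * K ≤ C₁ * C₂ * C₃ * K := mul_le_mul_of_nonneg_right h2 h1
      _ ≤ Kc := mul_le_mul_of_nonneg_left h3 (by linarith)
  refine ⟨max (max D₀ D₁) D₄, Kc, min (min ω₀ ω₂) (min ω₃ ω₄), ?_, ?_, ?_, ?_⟩
  · have := hkey 1 K₀ (by linarith) hC123 (by linarith)
    linarith
  · exact lt_min (lt_min hω₀ hω₂) (lt_min hω₃ hω₄)
  · exact (min_le_left _ _).trans ((min_le_left _ _).trans hω₀')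
  intro d ξ H W p hd hdd hξ hp
  have hH : (1 : ℝ) ≤ H := by
    have h1 := hd n (by omega)
    have h2 : (1 : ℝ) ≤ d n := by exact_mod_cast h1.1
    linarith [h1.2]
  have hH0 : 0 ≤ H := by linarith
  have hH1 : H ≤ C₁ * H := by nlinarith
  have hH2 : C₁ * H ≤ C₂ * (C₁ * H) := by nlinarith
  have hH3 : C₂ * (C₁ * H) ≤ C₃ * (C₂ * (C₁ * H)) := by nlinarith
  have hmin : ∀ ω, ω = ω₀ ∨ ω = ω₂ ∨ ω = ω₃ ∨ ω = ω₄ → ∀ j j' : ℕ, j < j' → j' < n + 1 →
      (d j' : ℝ) ≤ ω * d j := by
    intro ω hω j j' h1 h2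
    refine (hdd j j' h1 h2).trans (mul_le_mul_of_nonneg_right ?_ (Nat.cast_nonneg _))
    rcases hω with rfl | rfl | rfl | rfl
    · exact (min_le_left _ _).trans (min_le_left _ _)
    · exact (min_le_left _ _).trans (min_le_right _ _)
    · exact (min_le_right _ _).trans (min_le_left _ _)
    · exact (min_le_right _ _).trans (min_le_right _ _)
  obtain ⟨f, W', hf, hfW⟩ := F (fun h : Fin (2 * n + 2) => d (h.val / 2))
    (fun h : Fin (2 * n + 2) => ξ h.val) H W p (fun h => hd _ (by have := h.2; omega)) hp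
  have hD₀ : D₀ ≤ max (max D₀ D₁) D₄ := (le_max_left _ _).trans (le_max_left _ _)
  have hD₁ : D₁ ≤ max (max D₀ D₁) D₄ := (le_max_right _ _).trans (le_max_left _ _)
  have hD₄ : D₄ ≤ max (max D₀ D₁) D₄ := le_max_right _ _
  by_cases hA : 1 ≤ f.degreeOf (Fin.last (2 * n + 1)) ∨
      1 ≤ f.degreeOf (Fin.castSucc (Fin.last (2 * n)))
  · by_cases hB : ∃ h : Fin (2 * n), 1 ≤ f.degreeOf h.castSucc.castSucc
    · -- case (iii)
      have hl1 : (Fin.last (2 * n + 1)).val / 2 = n := by
        rw [Fin.val_last]; omega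
      have hl2 : (Fin.castSucc (Fin.last (2 * n))).val / 2 = n := by
        rw [Fin.val_castSucc, Fin.val_last]; omega
      have hl3 : (Fin.last (2 * n)).val / 2 = n := by
        rw [Fin.val_last]; omega
      obtain ⟨g, W'', hW'', hg⟩ := SA (fun h : Fin (2 * n + 2) => d (h.val / 2))
        (fun h : Fin (2 * n + 2) => ξ h.val) (C₁ * H) W' f
        (fun h => by
          have := hd (h.val / 2) (by have := h.2; omega)
          exact ⟨this.1, this.2.trans hH1⟩)
        (by rw [hl1, hl2])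
        (fun h => by
          rw [hl1]
          exact hmin ω₂ (by simp) _ _ (by simp only [Fin.val_castSucc]; have := h.2; omega)
            (by omega))
        hf hfW hA hB
      rw [hl1] at hW''
      have hξn := hξ (2 * n) (by omega)
      obtain ⟨U, W3, hU⟩ := SB (fun h : Fin (2 * n + 1) => d (h.val / 2))
        (fun h : Fin (2 * n + 1) => ξ h.val) (C₂ * (C₁ * H)) W'' g
        (fun h => by
          have := hd (h.val / 2) (by have := h.2; omega)
          exact ⟨this.1, this.2.trans (hH1.trans hH2)⟩)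
        (fun h => by
          rw [hl3]
          exact hmin ω₃ (by simp) _ _ (by simp only [Fin.val_castSucc]; have := h.2; omega)
            (by omega))
        (by rw [hl3]; exact hW'') hg
        (by
          rw [hl3, Fin.val_last]
          rw [show 2 * n / 2 = n by omega] at hξn
          refine lt_of_le_of_lt ?_ hξn
          have h1 := hkey (C₁ * C₂) K₃ (by linarith) hC12' (by linarith)
          have h2 := mul_le_mul_of_nonneg_right h1 hH0
          linarith [mul_comm K₃ (C₂ * (C₁ * H)), mul_comm (C₁ * C₂ * K₃) H,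
            show K₃ * (C₂ * (C₁ * H)) = C₁ * C₂ * K₃ * H by ring])
      have hfin := B4 d ξ (C₃ * (C₂ * (C₁ * H))) W3 U
        (fun j hj => by
          have := hd j (by omega)
          exact ⟨this.1, this.2.trans (hH1.trans (hH2.trans hH3))⟩)
        (fun j j' h1 h2 => hmin ω₄ (by simp) j j' h1 (by omega))
        (fun h hh => by
          refine lt_of_le_of_lt ?_ (hξ h (by omega))
          have h1 := hkey (C₁ * C₂ * C₃) K₄ (by linarith) le_rfl (by linarith)
          have h2 := mul_le_mul_of_nonneg_right h1 hH0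
          linarith [show K₄ * (C₃ * (C₂ * (C₁ * H))) = C₁ * C₂ * C₃ * K₄ * H by ring])
        hU
      refine LowPt_mono (Nat.le_succ n) hD₄ ?_ hfin
      have h1 := hkey (C₁ * C₂ * C₃) K₄ (by linarith) le_rfl (by linarith)
      have h2 := mul_le_mul_of_nonneg_right h1 hH0
      linarith [show K₄ * (C₃ * (C₂ * (C₁ * H))) = C₁ * C₂ * C₃ * K₄ * H by ring]
    · -- case (ii)
      have hB' : ∀ h : Fin (2 * n), f.degreeOf h.castSucc.castSucc = 0 := by
        intro h
        by_contra h0
        exact hB ⟨h, Nat.one_le_iff_ne_zero.2 h0⟩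
      obtain ⟨f', hf1, hf2, hf3, hf4, hf5, hf6⟩ := hREN k 2 (2 * n + 2)
        (fun i => ⟨2 * n + i.val, by have := i.2; omega⟩)
        (fun i i' h => by
          have := congrArg Fin.val h
          simp only at this
          exact Fin.ext (by omega)) f
        (fun h hh => by
          by_cases h2 : h.val < 2 * n
          · exact hB' ⟨h.val, h2⟩
          · exfalso
            apply hh
            have h3 := h.2
            exact ⟨⟨h.val - 2 * n, by omega⟩, Fin.ext (by simp only; omega)⟩)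
      have hr : ∀ i : Fin 2, (2 * n + i.val) / 2 = n := fun i => by have := i.2; omega
      have hInv : InvW (fun _ : Fin 2 => d n) (fun i : Fin 2 => ξ (2 * n + i.val)) (C₁ * H) σ₁ W'
          f' := by
        obtain ⟨g1, g2, g3, g4, g5⟩ := hfW
        refine ⟨?_, g2, ?_, ?_, ?_⟩
        · rintro rfl
          rw [map_zero] at hf1
          exact g1 hf1
        · intro i
          rw [hf2]
          have := g3 ⟨2 * n + i.val, by have := i.2; omega⟩
          simp only [hr] at this
          exact this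
        · rw [hf3]; exact g4
        · have := hf4 _ _ _ g5
          simp only [hr] at this
          exact this
      have hdn := hd n (by omega)
      obtain ⟨e1, e2, e3⟩ := B2 (d n) (fun i : Fin 2 => ξ (2 * n + i.val)) (C₁ * H) W' f' hdn.1
        (hdn.2.trans hH1) (hf5 hf) hInv
        (fun i => by
          have h0 := hξ (2 * n + i.val) (by have := i.2; omega)
          rw [hr i] at h0
          refine lt_of_le_of_lt ?_ h0
          have h1 := hkey C₁ K₁ (by linarith) hC1 (by linarith)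
          have h2 := mul_le_mul_of_nonneg_right h1 hH0
          linarith [show K₁ * (C₁ * H) = C₁ * K₁ * H by ring])
      refine ⟨n, by omega, f', hf5 hf, fun i => (e1 i).trans hD₁, e2, e3.trans ?_⟩
      have h1 := hkey C₁ K₁ (by linarith) hC1 (by linarith)
      have h2 := mul_le_mul_of_nonneg_right h1 hH0
      linarith [show K₁ * (C₁ * H) = C₁ * K₁ * H by ring]
  · -- case (i)
    rw [not_or] at hA
    obtain ⟨hA1, hA2⟩ := hA
    obtain ⟨f', hf1, hf2, hf3, hf4, hf5, hf6⟩ := hREN k (2 * n) (2 * n + 2)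
      (fun i => i.castSucc.castSucc)
      (fun i i' h => Fin.castSucc_injective _ (Fin.castSucc_injective _ h)) f
      (fun h hh => by
        by_cases h2 : h.val < 2 * n
        · exact absurd ⟨⟨h.val, h2⟩, Fin.ext rfl⟩ hh
        · have h3 := h.2
          rcases Nat.lt_or_ge h.val (2 * n + 1) with h4 | h4
          · have h5 : h = Fin.castSucc (Fin.last (2 * n)) := Fin.ext (by
              rw [Fin.val_castSucc, Fin.val_last]; omega)
            rw [h5]; omega
          · have h5 : h = Fin.last (2 * n + 1) := Fin.ext (by rw [Fin.val_last]; omega)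
            rw [h5]; omega)
    have hInv : InvW (fun h : Fin (2 * n) => d (h.val / 2)) (fun h : Fin (2 * n) => ξ h.val)
        (C₁ * H) σ₁ W' f' := by
      obtain ⟨g1, g2, g3, g4, g5⟩ := hfW
      refine ⟨?_, g2, ?_, ?_, ?_⟩
      · rintro rfl
        rw [map_zero] at hf1
        exact g1 hf1
      · intro i
        rw [hf2]
        have h7 := g3 i.castSucc.castSucc
        simp only [Fin.val_castSucc] at h7
        exact h7
      · rw [hf3]; exact g4
      · have h7 := hf4 (fun h : Fin (2 * n + 2) => d (h.val / 2))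
          (fun h : Fin (2 * n + 2) => ξ h.val) _ g5
        simp only [Fin.val_castSucc] at h7
        exact h7
    have hfin := B1 d ξ (C₁ * H) W' f'
      (fun j hj => by
        have := hd j (by omega)
        exact ⟨this.1, this.2.trans hH1⟩)
      (fun j j' h1 h2 => hmin ω₀ (by simp) j j' h1 (by omega))
      (fun h hh => by
        refine lt_of_le_of_lt ?_ (hξ h (by omega))
        have h1 := hkey C₁ K₀ (by linarith) hC1 (by linarith)
        have h2 := mul_le_mul_of_nonneg_right h1 hH0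
        linarith [show K₀ * (C₁ * H) = C₁ * K₀ * H by ring])
      hInv
    refine LowPt_mono (Nat.le_succ n) hD₀ ?_ hfin
    have h1 := hkey C₁ K₀ (by linarith) hC1 (by linarith)
    have h2 := mul_le_mul_of_nonneg_right h1 hH0
    linarith [show K₀ * (C₁ * H) = C₁ * K₀ * H by ring]

end

end Pool.Agent.Helper39.SGA
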